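import Mathlib
import Pool.Agent.Hhelper17.BatyrevDefs
import Pool.Agent.Hhelper17.BatyrevGrowth

/-!
# A smooth weak Fano variety with exponentially many families of rational curves

Over every algebraically closed field of characteristic zero there is a smooth weak Fano variety
`X`, a complete intersection of dimension five in the seventh power of the projective line, such
that for every ample `L = O(l_1, ..., l_7)|_X` the number of irreducible components of the space of
morphisms from the projective line to `X` of `L`-degree at most `d` is not bounded by any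
polynomial in `d`: it is at least `β ^ d` for arbitrarily large `d`, for some `β > 1`.
-/

namespace Pool.Agent.Results.MP_9df269_ag.BatyrevExponential

open Pool.Agent.Hhelper17.Batyrev

universe u

theorem result (k : Type u) [Field k] [IsAlgClosed k] [CharZero k] :
    ∃ X : CI k, X.r = 7 ∧ X.c = 2 ∧ X.IsSmooth ∧ IrreducibleSpace X.Point ∧ X.IsWeakFano ∧
      ∀ l : Fin X.r → ℕ, (∀ i, 0 < l i) → ∃ β : ℝ, 1 < β ∧
        ∀ (P : Polynomial ℝ) (D : ℕ), ∃ d m : ℕ, D ≤ d ∧ P.eval (d : ℝ) < (m : ℝ) ∧
          β ^ d ≤ (m : ℝ) ∧ (m : ℕ∞) ≤ X.numComp l d := by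
  obtain ⟨a, b, hab, h⟩ := exp_growth k
  refine ⟨XX k a b, rfl, rfl, isSmooth_XX hab, point_irreducible hab, isWeakFano_XX k a b,
    fun l hl => ?_⟩
  obtain ⟨β, hβ, hgrow⟩ := h l hl
  refine ⟨β, hβ, fun P D => ?_⟩
  obtain ⟨D', hD'⟩ := Filter.eventually_atTop.mp (eventually_poly_lt P hβ)
  obtain ⟨d, m, hd, hm, hle⟩ := hgrow (max D D')
  exact ⟨d, m, (le_max_left D D').trans hd,
    (hD' d ((le_max_right D D').trans hd)).trans_le hm, hm, hle⟩

end Pool.Agent.Results.MP_9df269_ag.BatyrevExponential
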